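import Pool.Agent.Helper81.LT.Inc

/-!
MP_c20641_lc, packet BFORM: bounded truth is given by a formula.
-/

namespace Pool.Agent.Helper72.LT

open FirstOrder Language Pool.Agent.Helper81.LT

theorem bform : BFORM := by
  intro n φ
  induction φ with
  | falsum =>
    refine ⟨⊥, fun M _ xs ys => ?_⟩
    simp only [Formula.realize_bot, Bd]
  | equal t s =>
    refine ⟨(t.relabel (Sum.elim Empty.elim Sum.inl)).equal
      (s.relabel (Sum.elim Empty.elim Sum.inl)), fun M _ xs ys => ?_⟩
    simp only [Bd]
    rw [Formula.realize_equal, Term.realize_relabel, Term.realize_relabel]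
    have h : (Sum.elim xs ys ∘ Sum.elim Empty.elim Sum.inl : Empty ⊕ Fin _ → M) =
        Sum.elim Empty.elim xs := by
      funext i
      rcases i with i | i
      · exact i.elim
      · rfl
    rw [h]
  | rel R ts =>
    refine ⟨R.formula fun i => (ts i).relabel (Sum.elim Empty.elim Sum.inl),
      fun M _ xs ys => ?_⟩
    simp only [Bd]
    rw [Formula.realize_rel]
    have h : (Sum.elim xs ys ∘ Sum.elim Empty.elim Sum.inl : Empty ⊕ Fin _ → M) =
        Sum.elim Empty.elim xs := by
      funext i
      rcases i with i | i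
      · exact i.elim
      · rfl
    simp only [Term.realize_relabel, h]
  | imp φ ψ ih1 ih2 =>
    obtain ⟨φ', h1⟩ := ih1
    obtain ⟨ψ', h2⟩ := ih2
    refine ⟨φ'.imp ψ', fun M _ xs ys => ?_⟩
    simp only [Bd]
    rw [Formula.realize_imp, h1, h2]
  | all φ ih =>
    rename_i n
    obtain ⟨ψ', h'⟩ := ih
    let g : Fin (n + 1) ⊕ ℕ → (Fin n ⊕ ℕ) ⊕ Unit :=
      Sum.elim (Fin.lastCases (Sum.inr ()) fun i => Sum.inl (Sum.inl i))
        fun k => Sum.inl (Sum.inr (k + 1))
    refine ⟨Formula.iAlls Unit ((Relations.formula₂ (L := LA) ARel.lt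
      (Term.var (Sum.inr ())) (Term.var (Sum.inl (Sum.inr 0)))).imp (ψ'.relabel g)),
      fun M _ xs ys => ?_⟩
    rw [Formula.realize_iAlls]
    simp only [Bd]
    have key : ∀ x : Unit → M, (Sum.elim (Sum.elim xs ys) x ∘ g) =
        Sum.elim (Fin.snoc xs (x ()) : Fin (n + 1) → M) (fun k => ys (k + 1)) := by
      intro x
      funext i
      rcases i with i | i
      · refine Fin.lastCases ?_ (fun j => ?_) i
        · simp [g]
        · simp [g]
      · simp [g]
    constructor
    · intro H x hx
      have := H (fun _ => x)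
      rw [Formula.realize_imp, Formula.realize_relabel, key, h', Formula.realize_rel₂] at this
      exact this hx
    · intro H x
      rw [Formula.realize_imp, Formula.realize_relabel, key, h', Formula.realize_rel₂]
      intro hx
      exact H (x ()) hx

end Pool.Agent.Helper72.LT
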